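import Pool.Agent.H422R3.CEFinal

set_option autoImplicit false

/-!
Counting cherries and counting edges need not have a common extremal graph, however large the
chromatic number of the forbidden graph is.
-/

open SimpleGraph

namespace Pool.Agent.Results.MP_2c76b2_co.NoCommonExtremal

/-- `Ex n H F`: the `n`-vertex `F`-free graphs `G` for which the number of (unlabelled, not
necessarily induced) copies of `H` in `G` is as large as possible. Here `copyCount` is Mathlib's
number of subgraphs of `G` isomorphic to `H`, and `F.Free G` is Mathlib's `F`-freeness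
(no injective homomorphism from `F` to `G`). -/
def Ex {α β : Type} (n : ℕ) (H : SimpleGraph α) (F : SimpleGraph β) :
    Set (SimpleGraph (Fin n)) :=
  {G | F.Free G ∧ ∀ G' : SimpleGraph (Fin n), F.Free G' → G'.copyCount H ≤ G.copyCount H}

/-- `K₂` -/
abbrev K2 : SimpleGraph (Fin 2) := ⊤

/-- The cherry `K_{1,2}`, that is, the path with three vertices. -/
abbrev P3 : SimpleGraph (Fin 3) := pathGraph 3

theorem exists_forbidden (r : ℕ) : ∃ (m : ℕ) (F : SimpleGraph (Fin m)),
    (r : ℕ∞) < F.chromaticNumber ∧ ∀ n₀ : ℕ, ∃ n ≥ n₀, Ex n P3 F ∩ Ex n K2 F = ∅ := by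
  classical
  obtain ⟨k, hk⟩ : ∃ k, k = 12 * (r + 1) + 2 := ⟨_, rfl⟩
  obtain ⟨q, hq⟩ : ∃ q, q = 12 * (r + 1) * (r + 1 + 1) := ⟨_, rfl⟩
  let F₀ := H422CE.FF (r + 1) q (2 * k) ((r + 1 + 1) * (2 * k) + 1)
  let e := F₀.overFinIso rfl
  refine ⟨_, F₀.overFin rfl, ?_, ?_⟩
  · have hq0 : 0 < q := by rw [hq]; positivity
    let h1 : (⊤ : SimpleGraph (Fin (r + 1 + 2))) →g F₀ :=
      { toFun := fun i => Sum.inr (⟨0, hq0⟩, i)
        map_rel' := fun {a b} hab => ⟨rfl, hab⟩ }
    have h2 := chromaticNumber_mono_of_hom (e.toHom.comp h1)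
    rw [chromaticNumber_top, Fintype.card_fin] at h2
    refine lt_of_lt_of_le ?_ h2
    exact_mod_cast (by omega : r < r + 1 + 2)
  · intro n₀
    obtain ⟨n, hn, h⟩ := H422CE.main (r + 1) (by omega) n₀
    rw [← hk, ← hq] at h
    refine ⟨n, hn, ?_⟩
    have hfree : ∀ G : SimpleGraph (Fin n), (F₀.overFin rfl).Free G ↔ F₀.Free G :=
      fun G => (free_congr_left e).symm
    rw [← h]
    ext G
    simp only [Ex, H422CE.Ex, Set.mem_inter_iff, Set.mem_ofPred_eq, hfree]
    exact Iff.rfl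

/-- **Disproof.** For `H = P₃` and every `r` there is a graph `F` with `χ(F) > r` such that for
infinitely many `n` no `n`-vertex `F`-free graph maximises both the number of copies of `H` and
the number of edges. Hence it is not true that for every `H` there is `r(H)` such that for every
`F` with `χ(F) > r(H)` and all large `n` the sets `Ex(n,H,F)` and `Ex(n,K₂,F)` intersect. -/
theorem result :
    (∀ r : ℕ, ∃ (m : ℕ) (F : SimpleGraph (Fin m)), (r : ℕ∞) < F.chromaticNumber ∧
      ∀ n₀ : ℕ, ∃ n ≥ n₀, Ex n P3 F ∩ Ex n K2 F = ∅) ∧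
    ¬ (∀ (h : ℕ) (H : SimpleGraph (Fin h)), ∃ r : ℕ, ∀ (m : ℕ) (F : SimpleGraph (Fin m)),
      (r : ℕ∞) < F.chromaticNumber →
        ∃ n₀ : ℕ, ∀ n ≥ n₀, (Ex n H F ∩ Ex n K2 F).Nonempty) := by
  refine ⟨exists_forbidden, fun hall => ?_⟩
  obtain ⟨r, hr⟩ := hall 3 P3
  obtain ⟨m, F, hF, hn⟩ := exists_forbidden r
  obtain ⟨n₀, hn₀⟩ := hr m F hF
  obtain ⟨n, hnn, hemp⟩ := hn n₀
  have := hn₀ n hnn
  rw [hemp] at this
  exact Set.not_nonempty_empty this

end Pool.Agent.Results.MP_2c76b2_co.NoCommonExtremal
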